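import Pool.Agent.helper33.WD.Defs
import Pool.Agent.helper58.LD.MV
import Pool.Agent.helper58.WD.DS

/-! MP_4467b5_nt, module wd:RM: mean value of the tail of the Dirichlet series of
`ζ mob N - 1` (helper81). -/

set_option autoImplicit false

namespace Pool.Agent.helper33.WD

open Complex MeasureTheory Set
open Pool.Agent.helper6.LD (dp mean_value)

private theorem RM_cf (N n : ℕ) : ‖cf N n‖ ≤ n.divisors.card := by
  unfold cf
  split_ifs with h
  · simp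
  · refine (norm_sum_le _ _).trans ?_
    have : ∀ d ∈ n.divisors, ‖(if d ≤ N then (ArithmeticFunction.moebius d : ℂ) else 0)‖ ≤ (1 : ℝ) := by
      intro d _
      split_ifs
      · have := ArithmeticFunction.abs_moebius_le_one (n := d)
        rw [Complex.norm_intCast]
        exact_mod_cast this
      · simp
    refine (Finset.sum_le_sum this).trans ?_
    simp

/-- dyadic block of the Dirichlet series -/
private noncomputable def blk (N : ℕ) (κ : ℝ) (j : ℕ) (t : ℝ) : ℂ :=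
  ∑ n ∈ Finset.Ioc (2 ^ j * N) (2 ^ (j + 1) * N), cf N n * (n : ℂ) ^ (-((κ : ℂ) + t * I))

private lemma RM_blk_dp (N : ℕ) (κ : ℝ) (j : ℕ) (t : ℝ) :
    blk N κ j t = dp (2 ^ (j + 1) * N)
      (fun n => if 2 ^ j * N < n then cf N n * ((n : ℝ) ^ (-κ) : ℝ) else 0) t := by
  unfold blk dp
  symm
  have hsub : Finset.Ioc (2 ^ j * N) (2 ^ (j + 1) * N) ⊆ Finset.Icc 1 (2 ^ (j + 1) * N) := by
    intro n hn
    rw [Finset.mem_Ioc] at hn
    rw [Finset.mem_Icc]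
    omega
  rw [← Finset.sum_subset hsub]
  · refine Finset.sum_congr rfl fun n hn => ?_
    rw [Finset.mem_Ioc] at hn
    beta_reduce
    rw [if_pos hn.1]
    have hn0 : (0 : ℝ) < n := by exact_mod_cast (by omega : 0 < n)
    have hn0' : (n : ℂ) ≠ 0 := by exact_mod_cast hn0.ne'
    rw [neg_add, Complex.cpow_add _ _ hn0', Complex.ofReal_cpow hn0.le]
    push_cast
    ring
  · intro n hn hn'
    rw [Finset.mem_Icc] at hn
    rw [Finset.mem_Ioc, not_and_or] at hn'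
    have : ¬ (2 ^ j * N < n) := by
      rcases hn' with h | h
      · exact h
      · exact absurd hn.2 h
    beta_reduce
    rw [if_neg this, zero_mul]

private lemma RM_blk_le (κ A H : ℝ) (N : ℕ) (P : Finset ℝ) (hκ : 1 < κ) (hH : 1 ≤ H)
    (hN : H < N + 1) (hP : ∀ t ∈ P, A ≤ t ∧ t ≤ A + H)
    (hsep : ∀ s ∈ P, ∀ t ∈ P, s ≠ t → 1 ≤ |s - t|) (j : ℕ) :
    ∑ t ∈ P, ‖blk N κ j t‖ ^ 2 ≤
      66 * ((2 : ℝ) ^ j * N) ^ (2 - 2 * κ) * (1 + Real.log (2 ^ (j + 1) * N)) ^ 6 := by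
  have hN1 : 1 ≤ N := by
    by_contra h
    have : N = 0 := by omega
    subst this
    norm_num at hN
    linarith
  have hN1' : (1 : ℝ) ≤ N := by exact_mod_cast hN1
  set Y : ℝ := (2 : ℝ) ^ j * N with hY
  have hpow : (1 : ℝ) ≤ 2 ^ j := one_le_pow₀ (by norm_num)
  have hYN : (N : ℝ) ≤ Y := by rw [hY]; nlinarith
  have hY1 : 1 ≤ Y := hN1'.trans hYN
  have h2Y : ((2 ^ (j + 1) * N : ℕ) : ℝ) = 2 * Y := by
    rw [hY]; push_cast; ring
  have h2Y' : (2 : ℝ) ^ (j + 1) * N = 2 * Y := by rw [hY]; ring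
  have hM : 1 ≤ 2 ^ (j + 1) * N := Nat.mul_pos (by positivity) hN1
  have hmv := mean_value (2 ^ (j + 1) * N) hM
    (fun n => if 2 ^ j * N < n then cf N n * ((n : ℝ) ^ (-κ) : ℝ) else 0) A H (by linarith) P hP hsep
  simp only [← RM_blk_dp] at hmv
  rw [h2Y] at hmv
  rw [h2Y']
  set L : ℝ := 1 + Real.log (2 * Y) with hL
  have hlog : 0 ≤ Real.log (2 * Y) := Real.log_nonneg (by linarith)
  have hL1 : 1 ≤ L := by rw [hL]; linarith
  have hco : ∑ n ∈ Finset.Icc 1 (2 ^ (j + 1) * N),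
      ‖(if 2 ^ j * N < n then cf N n * (((n : ℝ) ^ (-κ) : ℝ) : ℂ) else 0)‖ ^ 2 ≤
      Y ^ (-2 * κ) * (2 * Y * L ^ 3) := by
    have hterm : ∀ n ∈ Finset.Icc 1 (2 ^ (j + 1) * N),
        ‖(if 2 ^ j * N < n then cf N n * (((n : ℝ) ^ (-κ) : ℝ) : ℂ) else 0)‖ ^ 2 ≤
        Y ^ (-2 * κ) * ((n.divisors.card : ℝ)) ^ 2 := by
      intro n _
      split_ifs with h
      · have hYn : Y ≤ n := by
          have : ((2 ^ j * N : ℕ) : ℝ) ≤ n := by exact_mod_cast h.le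
          rw [hY]; push_cast at this; exact this
        have hn0 : (0 : ℝ) < n := by linarith
        rw [norm_mul, Complex.norm_real, mul_pow, Real.norm_eq_abs, abs_of_nonneg (by positivity),
          mul_comm]
        have e1 : ((n : ℝ) ^ (-κ)) ^ 2 = (n : ℝ) ^ (-2 * κ) := by
          rw [← Real.rpow_natCast, ← Real.rpow_mul hn0.le]
          congr 1
          push_cast
          ring
        rw [e1]
        have e2 : (n : ℝ) ^ (-2 * κ) ≤ Y ^ (-2 * κ) :=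
          Real.rpow_le_rpow_of_nonpos (by linarith) hYn (by linarith)
        have e3 : ‖cf N n‖ ^ 2 ≤ ((n.divisors.card : ℝ)) ^ 2 :=
          pow_le_pow_left₀ (norm_nonneg _) (RM_cf N n) 2
        exact mul_le_mul e2 e3 (by positivity) (by positivity)
      · rw [norm_zero, zero_pow two_ne_zero]
        positivity
    refine (Finset.sum_le_sum hterm).trans ?_
    rw [← Finset.mul_sum]
    refine mul_le_mul_of_nonneg_left ?_ (by positivity)
    have := sum_card_divisors_sq (2 ^ (j + 1) * N)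
    rw [h2Y] at this
    exact this
  refine hmv.trans ?_
  have hlogL : Real.log (2 * Y) ≤ L := by rw [hL]; linarith
  have f1 : H + 1 + 4 * (2 * Y) * (1 + Real.log (2 * Y)) ≤ 11 * Y * L := by
    have : H + 1 ≤ 3 * Y * L := by nlinarith
    rw [← hL]
    nlinarith
  have f2 : 2 + Real.log (2 * Y) ^ 2 ≤ 3 * L ^ 2 := by nlinarith
  have f0 : 0 ≤ H + 1 + 4 * (2 * Y) * (1 + Real.log (2 * Y)) := by positivity
  have f3 : 0 ≤ ∑ n ∈ Finset.Icc 1 (2 ^ (j + 1) * N),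
      ‖(if 2 ^ j * N < n then cf N n * (((n : ℝ) ^ (-κ) : ℝ) : ℂ) else 0)‖ ^ 2 :=
    Finset.sum_nonneg fun _ _ => sq_nonneg _
  have f4 : 0 ≤ 11 * Y * L := by positivity
  have f5 : 0 ≤ 2 + Real.log (2 * Y) ^ 2 := by positivity
  calc _ ≤ (11 * Y * L) * (3 * L ^ 2) * (Y ^ (-2 * κ) * (2 * Y * L ^ 3)) :=
        mul_le_mul (mul_le_mul f1 f2 f5 f4) hco f3 (by positivity)
    _ = 66 * (Y ^ (-2 * κ) * Y ^ 2) * L ^ 6 := by ring
    _ = 66 * Y ^ (2 - 2 * κ) * L ^ 6 := by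
        congr 2
        rw [← Real.rpow_natCast Y 2, ← Real.rpow_add (by linarith)]
        congr 1
        push_cast
        ring

/-- geometric sums with polynomial weights -/
private lemma RM_geom {ρ : ℝ} (h0 : 0 ≤ ρ) (h1 : ρ < 1) (J : ℕ) :
    ∑ j ∈ Finset.range J, ((j : ℝ) + 2) ^ 6 * ρ ^ j ≤ 46080 / (1 - ρ) ^ 7 := by
  have hn : ‖ρ‖ < 1 := by rw [Real.norm_eq_abs, abs_of_nonneg h0]; exact h1
  have hs := hasSum_choose_mul_geometric_of_norm_lt_one 6 hn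
  have hb : ∀ j : ℕ, ((j : ℝ) + 2) ^ 6 ≤ 46080 * ((j + 6).choose 6 : ℝ) := by
    intro j
    have h6 : ((j + 6).choose 6 : ℝ) * 720 = (j + 1) * (j + 2) * (j + 3) * (j + 4) * (j + 5) * (j + 6) := by
      have := Nat.descFactorial_eq_factorial_mul_choose (j + 6) 6
      have h7 : (j + 6).descFactorial 6 = (j + 1) * (j + 2) * (j + 3) * (j + 4) * (j + 5) * (j + 6) := by
        simp [Nat.descFactorial]
        ring
      rw [h7] at this
      have h8 : (Nat.factorial 6) = 720 := rfl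
      rw [h8] at this
      have h9 : (((j + 1) * (j + 2) * (j + 3) * (j + 4) * (j + 5) * (j + 6) : ℕ) : ℝ) =
        ((720 * (j + 6).choose 6 : ℕ) : ℝ) := by rw [this]
      push_cast at h9
      linarith
    have h10 : 46080 * ((j + 6).choose 6 : ℝ) =
        64 * ((j + 1) * (j + 2) * (j + 3) * (j + 4) * (j + 5) * (j + 6)) := by rw [← h6]; ring
    rw [h10]
    have hj : (0 : ℝ) ≤ j := Nat.cast_nonneg j
    have : (64 : ℝ) * ((j + 1) * (j + 2) * (j + 3) * (j + 4) * (j + 5) * (j + 6)) - (j + 2) ^ 6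
      = 63 * (j : ℝ) ^ 6 + 1332 * (j : ℝ) ^ 5 + (64 * 175 - 60) * (j : ℝ) ^ 4 + (64 * 735 - 160) * (j : ℝ) ^ 3
        + (64 * 1624 - 240) * (j : ℝ) ^ 2 + (64 * 1764 - 192) * (j : ℝ) + (46080 - 64) := by ring
    have h11 : 0 ≤ (64 : ℝ) * ((j + 1) * (j + 2) * (j + 3) * (j + 4) * (j + 5) * (j + 6)) - (j + 2) ^ 6 := by
      rw [this]; positivity
    linarith
  calc _ ≤ ∑ j ∈ Finset.range J, 46080 * (((j + 6).choose 6 : ℝ) * ρ ^ j) := by
        refine Finset.sum_le_sum fun j _ => ?_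
        rw [← mul_assoc]
        exact mul_le_mul_of_nonneg_right (hb j) (by positivity)
    _ = 46080 * ∑ j ∈ Finset.range J, (((j + 6).choose 6 : ℝ) * ρ ^ j) := by rw [Finset.mul_sum]
    _ ≤ 46080 * (1 / (1 - ρ) ^ 7) := by
        refine mul_le_mul_of_nonneg_left ?_ (by norm_num)
        exact sum_le_hasSum _ (fun j _ => by positivity) hs
    _ = _ := by ring

private lemma RM_partial (κ A H : ℝ) (N : ℕ) (P : Finset ℝ) (hκ : 1 < κ) (hκ2 : κ ≤ 2) (hH : 1 ≤ H)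
    (hNH : (N : ℝ) ≤ H) (hN : H < N + 1) (hP : ∀ t ∈ P, A ≤ t ∧ t ≤ A + H)
    (hsep : ∀ s ∈ P, ∀ t ∈ P, s ≠ t → 1 ≤ |s - t|) (J : ℕ) :
    ∑ t ∈ P, ‖∑ j ∈ Finset.range J, blk N κ j t‖ ^ 2 ≤
      (66 * 46080 * 256 * 4) / (κ - 1) ^ 8 * H ^ (2 - 2 * κ) * (1 + Real.log H) ^ 6 := by
  have hN1 : 1 ≤ N := by
    by_contra h
    have : N = 0 := by omega
    subst this
    norm_num at hN
    linarith
  have hN1' : (1 : ℝ) ≤ N := by exact_mod_cast hN1
  have hN0 : (0 : ℝ) < N := by linarith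
  set δ : ℝ := κ - 1 with hδ
  have hδ0 : 0 < δ := by rw [hδ]; linarith
  have hδ1 : δ ≤ 1 := by rw [hδ]; linarith
  set ρ : ℝ := (2 : ℝ) ^ (-δ) with hρ
  have hρ0 : 0 < ρ := by rw [hρ]; positivity
  have hρ1 : ρ ≤ 1 - δ / 2 := by
    -- convexity of `2 ^ (-δ)`
    have hb : (1 / 2 : ℝ) ^ δ ≤ 1 + δ * (-(1 / 2)) := by
      have := rpow_one_add_le_one_add_mul_self (s := -(1 / 2 : ℝ)) (by norm_num) (p := δ)
        hδ0.le hδ1
      have e : (1 + -(1 / 2) : ℝ) = 1 / 2 := by norm_num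
      rw [e] at this
      exact this
    have e : ρ = (1 / 2 : ℝ) ^ δ := by
      rw [hρ, Real.rpow_neg (by norm_num), one_div, Real.inv_rpow (by norm_num)]
    rw [e]
    linarith
  have hρlt : ρ < 1 := by linarith
  have h1ρ : δ / 2 ≤ 1 - ρ := by linarith
  set LN : ℝ := 1 + Real.log N with hLN
  have hlogN : 0 ≤ Real.log N := Real.log_nonneg hN1'
  have hLN1 : 1 ≤ LN := by rw [hLN]; linarith
  -- the block bound
  have hblk : ∀ j : ℕ, ∑ t ∈ P, ‖blk N κ j t‖ ^ 2 ≤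
      66 * (N : ℝ) ^ (-2 * δ) * LN ^ 6 * (((j : ℝ) + 2) ^ 6 * (ρ ^ j) ^ 2) := by
    intro j
    refine (RM_blk_le κ A H N P hκ hH hN hP hsep j).trans ?_
    have e1 : ((2 : ℝ) ^ j * N) ^ (2 - 2 * κ) = (ρ ^ j) ^ 2 * (N : ℝ) ^ (-2 * δ) := by
      rw [Real.mul_rpow (by positivity) hN0.le]
      congr 1
      · have g1 : ((2 : ℝ) ^ j) ^ (2 - 2 * κ) = (2 : ℝ) ^ ((j : ℝ) * (2 - 2 * κ)) := by
          rw [← Real.rpow_natCast, ← Real.rpow_mul (by norm_num)]
        have g2 : (ρ ^ j) ^ 2 = (2 : ℝ) ^ ((j : ℝ) * (2 - 2 * κ)) := by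
          rw [hρ, ← Real.rpow_natCast ((2 : ℝ) ^ (-δ)) j, ← Real.rpow_mul (by norm_num),
            ← Real.rpow_natCast _ 2, ← Real.rpow_mul (by norm_num)]
          congr 1
          rw [hδ]; push_cast; ring
        rw [g1, g2]
      · congr 1
        rw [hδ]; ring
    rw [e1]
    have e2 : 1 + Real.log (2 ^ (j + 1) * N) ≤ LN * ((j : ℝ) + 2) := by
      rw [Real.log_mul (by positivity) hN0.ne', Real.log_pow]
      have hl2 : Real.log 2 ≤ 1 := by
        have := Real.log_two_lt_d9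
        linarith
      have hl20 : 0 ≤ Real.log 2 := Real.log_nonneg (by norm_num)
      have hj : (0 : ℝ) ≤ j := Nat.cast_nonneg j
      push_cast
      rw [hLN]
      nlinarith [mul_nonneg hj hlogN]
    have e3 : 0 ≤ 1 + Real.log (2 ^ (j + 1) * N) := by
      have : (1 : ℝ) ≤ 2 ^ (j + 1) * N := by
        have h2 : (1 : ℝ) ≤ 2 ^ (j + 1) := one_le_pow₀ (by norm_num)
        nlinarith
      have := Real.log_nonneg this
      linarith
    calc _ ≤ 66 * ((ρ ^ j) ^ 2 * (N : ℝ) ^ (-2 * δ)) * (LN * ((j : ℝ) + 2)) ^ 6 := by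
          refine mul_le_mul_of_nonneg_left ?_ (by positivity)
          exact pow_le_pow_left₀ e3 e2 6
      _ = _ := by ring
  -- Cauchy-Schwarz with weights `ρ ^ j`
  have hcs : ∀ t ∈ P, ‖∑ j ∈ Finset.range J, blk N κ j t‖ ^ 2 ≤
      (1 / (1 - ρ)) * ∑ j ∈ Finset.range J, ‖blk N κ j t‖ ^ 2 / ρ ^ j := by
    intro t _
    have h1 : ‖∑ j ∈ Finset.range J, blk N κ j t‖ ≤ ∑ j ∈ Finset.range J, ‖blk N κ j t‖ :=
      norm_sum_le _ _
    have h2 : (∑ j ∈ Finset.range J, ‖blk N κ j t‖) ^ 2 ≤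
        (∑ j ∈ Finset.range J, ρ ^ j) * ∑ j ∈ Finset.range J, ‖blk N κ j t‖ ^ 2 / ρ ^ j := by
      have := Finset.sum_sq_le_sum_mul_sum_of_sq_le_mul (Finset.range J)
        (r := fun j => ‖blk N κ j t‖) (f := fun j => ρ ^ j) (g := fun j => ‖blk N κ j t‖ ^ 2 / ρ ^ j)
        (fun j _ => by positivity) (fun j _ => by positivity)
        (fun j _ => le_of_eq (by field_simp))
      exact this
    have h3 : ∑ j ∈ Finset.range J, ρ ^ j ≤ 1 / (1 - ρ) := by
      have hg := hasSum_geometric_of_lt_one hρ0.le hρlt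
      rw [← one_div] at hg
      exact sum_le_hasSum _ (fun j _ => by positivity) hg
    calc _ ≤ (∑ j ∈ Finset.range J, ‖blk N κ j t‖) ^ 2 :=
          pow_le_pow_left₀ (norm_nonneg _) h1 2
      _ ≤ _ := h2
      _ ≤ _ := mul_le_mul_of_nonneg_right h3 (Finset.sum_nonneg fun _ _ => by positivity)
  have h1ρ0 : 0 < 1 - ρ := by linarith
  have hmain : ∑ t ∈ P, ‖∑ j ∈ Finset.range J, blk N κ j t‖ ^ 2 ≤
      (1 / (1 - ρ)) * (66 * (N : ℝ) ^ (-2 * δ) * LN ^ 6 * (46080 / (1 - ρ) ^ 7)) := by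
    refine (Finset.sum_le_sum hcs).trans ?_
    rw [← Finset.mul_sum]
    refine mul_le_mul_of_nonneg_left ?_ (by positivity)
    rw [Finset.sum_comm]
    calc _ ≤ ∑ j ∈ Finset.range J, 66 * (N : ℝ) ^ (-2 * δ) * LN ^ 6 * (((j : ℝ) + 2) ^ 6 * ρ ^ j) := by
          refine Finset.sum_le_sum fun j _ => ?_
          rw [← Finset.sum_div, div_le_iff₀ (by positivity)]
          refine (hblk j).trans (le_of_eq ?_)
          ring
      _ = 66 * (N : ℝ) ^ (-2 * δ) * LN ^ 6 * ∑ j ∈ Finset.range J, ((j : ℝ) + 2) ^ 6 * ρ ^ j := by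
          rw [Finset.mul_sum]
      _ ≤ _ := mul_le_mul_of_nonneg_left (RM_geom hρ0.le hρlt J) (by positivity)
  refine hmain.trans ?_
  -- comparison with `H`
  have hNH2 : (N : ℝ) ^ (-2 * δ) ≤ 4 * H ^ (2 - 2 * κ) := by
    have hH0 : 0 < H := by linarith
    have h1 : (N : ℝ) ^ (-2 * δ) ≤ (H / 2) ^ (-2 * δ) :=
      Real.rpow_le_rpow_of_nonpos (by linarith) (by linarith) (by linarith)
    refine h1.trans ?_
    rw [div_eq_mul_inv, Real.mul_rpow hH0.le (by norm_num), mul_comm]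
    have h2 : ((2 : ℝ)⁻¹) ^ (-2 * δ) ≤ 4 := by
      rw [Real.inv_rpow (by norm_num), ← Real.rpow_neg (by norm_num)]
      calc (2 : ℝ) ^ (-(-2 * δ)) ≤ (2 : ℝ) ^ (2 : ℝ) :=
            Real.rpow_le_rpow_of_exponent_le (by norm_num) (by linarith)
        _ = 4 := by norm_num
    have h3 : -2 * δ = 2 - 2 * κ := by rw [hδ]; ring
    rw [h3] at h2 ⊢
    exact mul_le_mul_of_nonneg_right h2 (by positivity)
  have hLH : LN ^ 6 ≤ (1 + Real.log H) ^ 6 := by
    refine pow_le_pow_left₀ (by linarith) ?_ 6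
    rw [hLN]
    have := Real.log_le_log hN0 hNH
    linarith
  have hinv : 1 / (1 - ρ) * (1 / (1 - ρ) ^ 7) ≤ 256 / δ ^ 8 := by
    have e : 1 / (1 - ρ) * (1 / (1 - ρ) ^ 7) = 1 / (1 - ρ) ^ 8 := by
      field_simp
    rw [e]
    have e2 : (256 : ℝ) / δ ^ 8 = 1 / (δ / 2) ^ 8 := by
      field_simp
      norm_num
    rw [e2]
    exact one_div_le_one_div_of_le (by positivity) (pow_le_pow_left₀ (by positivity) h1ρ 8)
  have hLH0 : 0 ≤ Real.log H := Real.log_nonneg hH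
  calc _ = (66 * 46080) * (1 / (1 - ρ) * (1 / (1 - ρ) ^ 7)) * (N : ℝ) ^ (-2 * δ) * LN ^ 6 := by ring
    _ ≤ (66 * 46080) * (256 / δ ^ 8) * (4 * H ^ (2 - 2 * κ)) * (1 + Real.log H) ^ 6 := by
        gcongr
    _ = _ := by ring

private lemma RM_range (N : ℕ) (κ : ℝ) (t : ℝ) (J : ℕ) :
    ∑ n ∈ Finset.range (2 ^ J * N + 1), cf N n * (n : ℂ) ^ (-((κ : ℂ) + t * I)) =
      ∑ j ∈ Finset.range J, blk N κ j t := by
  induction J with
  | zero =>
    rw [Finset.range_zero, Finset.sum_empty]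
    refine Finset.sum_eq_zero fun n hn => ?_
    rw [Finset.mem_range] at hn
    have : n ≤ N := by omega
    rw [cf, if_pos this, zero_mul]
  | succ J ih =>
    rw [Finset.sum_range_succ (fun j => blk N κ j t), ← ih, blk]
    have hle : 2 ^ J * N + 1 ≤ 2 ^ (J + 1) * N + 1 := by
      have : 2 ^ J * N ≤ 2 ^ (J + 1) * N := Nat.mul_le_mul_right _ (Nat.pow_le_pow_right (by norm_num) (by omega))
      omega
    rw [← Finset.sum_range_add_sum_Ico _ hle]
    congr 1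
    refine Finset.sum_congr ?_ fun _ _ => rfl
    ext n
    rw [Finset.mem_Ico, Finset.mem_Ioc]
    omega

/-- wd:RM  mean value of the tail, on the line `Re s = κ > 1`. -/
theorem right_mv : ∃ C : ℝ, 0 < C ∧ ∀ (κ A H : ℝ) (N : ℕ) (P : Finset ℝ), 1 < κ → κ ≤ 2 → 1 ≤ H →
    (N : ℝ) ≤ H → H < N + 1 → (∀ t ∈ P, A ≤ t ∧ t ≤ A + H) →
    (∀ s ∈ P, ∀ t ∈ P, s ≠ t → 1 ≤ |s - t|) →
    ∑ t ∈ P, ‖∑' n : ℕ, cf N n * (n : ℂ) ^ (-((κ : ℂ) + t * I))‖ ^ 2 ≤
      C / (κ - 1) ^ 8 * H ^ (2 - 2 * κ) * (1 + Real.log H) ^ 6 := by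
  refine ⟨66 * 46080 * 256 * 4, by norm_num, ?_⟩
  intro κ A H N P hκ hκ2 hH hNH hN hP hsep
  classical
  have hN1 : 1 ≤ N := by
    by_contra h
    have : N = 0 := by omega
    subst this
    norm_num at hN
    linarith
  set Q := P.filter fun t : ℝ => Summable fun n : ℕ => cf N n * (n : ℂ) ^ (-((κ : ℂ) + t * I))
    with hQ
  have hsum : ∑ t ∈ P, ‖∑' n : ℕ, cf N n * (n : ℂ) ^ (-((κ : ℂ) + t * I))‖ ^ 2 =
      ∑ t ∈ Q, ‖∑' n : ℕ, cf N n * (n : ℂ) ^ (-((κ : ℂ) + t * I))‖ ^ 2 := by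
    symm
    refine Finset.sum_subset (Finset.filter_subset _ _) fun t ht ht' => ?_
    have : ¬ Summable fun n : ℕ => cf N n * (n : ℂ) ^ (-((κ : ℂ) + t * I)) := by
      intro h
      exact ht' (Finset.mem_filter.2 ⟨ht, h⟩)
    rw [tsum_eq_zero_of_not_summable this]
    simp
  rw [hsum]
  have hpart := fun J => RM_partial κ A H N Q hκ hκ2 hH hNH hN
    (fun t ht => hP t (Finset.mem_filter.1 ht).1)
    (fun s hs t ht => hsep s (Finset.mem_filter.1 hs).1 t (Finset.mem_filter.1 ht).1) J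
  refine le_of_tendsto' (x := Filter.atTop)
    (f := fun J => ∑ t ∈ Q, ‖∑ j ∈ Finset.range J, blk N κ j t‖ ^ 2) ?_ hpart
  refine tendsto_finsetSum _ fun t ht => ?_
  have hs := (Finset.mem_filter.1 ht).2
  have h1 := hs.hasSum.tendsto_sum_nat
  have h2 : Filter.Tendsto (fun J : ℕ => 2 ^ J * N + 1) Filter.atTop Filter.atTop := by
    refine Filter.tendsto_atTop_mono (f := fun J : ℕ => J) (fun J => ?_) Filter.tendsto_id
    have h3 : J < 2 ^ J := Nat.lt_two_pow_self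
    nlinarith
  have h3 := h1.comp h2
  have h4 : (fun J : ℕ => ∑ j ∈ Finset.range J, blk N κ j t) =
      ((fun n : ℕ => ∑ i ∈ Finset.range n, cf N i * (i : ℂ) ^ (-((κ : ℂ) + t * I))) ∘
        fun J : ℕ => 2 ^ J * N + 1) := by
    funext J
    simp only [Function.comp]
    rw [RM_range]
  rw [← h4] at h3
  exact (h3.norm).pow 2

end Pool.Agent.helper33.WD
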